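import Pool.Agent.H23.CM4.Targets

/-!
# MP_52e316_nt, board `cm4_modules`: row ABS, Abel summation for sums over ideals
-/

set_option autoImplicit false

open NumberField MeasureTheory Set Filter Complex Topology
open scoped nonZeroDivisors Real

namespace Pool.Agent.H30.CM4

open Pool.Agent.H23.CM4
open Pool.Agent.H31.CN (IsLf)
open Pool.Agent.H61.FM (CC pv Sp)

theorem pf_ABS (hDSM : T_DSM) : T_ABS := by
  intro K _ _ c g M a hc hg' hg ha
  obtain ⟨-, hn1, hsum⟩ := hDSM K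
  have hn0 : ∀ J : (Ideal (𝓞 K))⁰, 0 < nJ J := fun J => lt_of_lt_of_le one_pos (hn1 J)
  have hM : 0 ≤ M := by
    have h1 := (norm_nonneg _).trans (hg 1 le_rfl).2.1
    rwa [Real.one_rpow, mul_one] at h1
  have hcount : Countable (Ideal (𝓞 K))⁰ := by
    have h := (hsum 2 (by norm_num)).countable_support
    have h2 : Function.support (fun J : (Ideal (𝓞 K))⁰ => nJ J ^ (-(2 : ℝ))) = univ := by
      refine eq_univ_of_forall fun J => ?_
      exact (Real.rpow_pos_of_pos (hn0 J) _).ne'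
    rw [h2] at h
    exact countable_univ_iff.1 h
  have hdi : ∀ N : ℝ, 1 ≤ N → IntegrableOn (deriv g) (Ioi N) := by
    intro N hN
    have hN0 : 0 < N := by linarith
    refine Integrable.mono' ((integrableOn_Ioi_rpow_of_lt (a := -4) (by norm_num) hN0).const_mul M)
      ?_ ?_
    · refine (hg'.mono ?_).aestronglyMeasurable measurableSet_Ioi
      exact fun x hx => hN.trans (le_of_lt hx)
    · refine (ae_restrict_iff' measurableSet_Ioi).2 (Eventually.of_forall fun x hx => ?_)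
      exact (hg x (hN.trans (le_of_lt hx))).2.2
  have hlim : Tendsto g atTop (𝓝 0) := by
    have h1 := (tendsto_rpow_neg_atTop (y := 3) (by norm_num)).const_mul M
    rw [mul_zero] at h1
    refine squeeze_zero_norm' ?_ h1
    filter_upwards [eventually_ge_atTop 1] with x hx
    exact (hg x hx).2.1
  have hgN : ∀ N : ℝ, 1 ≤ N → ∫ x in Ioi N, deriv g x = -g N := by
    intro N hN
    rw [integral_Ioi_of_hasDerivAt_of_tendsto (hg N hN).1.continuousAt.continuousWithinAt
      (fun x hx => (hg x (hN.trans (le_of_lt hx))).1.hasDerivAt) (hdi N hN) hlim, zero_sub]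
  obtain ⟨φ, hφ⟩ : ∃ φ : (Ideal (𝓞 K))⁰ → ℝ → ℂ, φ = fun J =>
    (Ici (nJ J)).indicator (fun x => c J * deriv g x) := ⟨_, rfl⟩
  have hφi : ∀ J, IntegrableOn (φ J) (Ioi 1) := by
    intro J
    rw [hφ]
    exact ((hdi 1 le_rfl).const_mul (c J)).indicator measurableSet_Ici
  have hset : ∀ J : (Ideal (𝓞 K))⁰, (Ioi 1 ∩ Ici (nJ J) : Set ℝ) =ᵐ[volume] Ioi (nJ J) := by
    intro J
    have h1 : (Ioi 1 ∩ Ioi (nJ J) : Set ℝ) = Ioi (nJ J) := by
      rw [Ioi_inter_Ioi, sup_eq_right.2 (hn1 J)]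
    have h2 : (Ioi 1 ∩ Ici (nJ J) : Set ℝ) =ᵐ[volume] (Ioi 1 ∩ Ioi (nJ J) : Set ℝ) :=
      (ae_eq_refl _).inter Ioi_ae_eq_Ici.symm
    rwa [h1] at h2
  have hφI : ∀ J, ∫ x in Ioi (1 : ℝ), φ J x = -(c J * g (nJ J)) := by
    intro J
    rw [hφ]
    change ∫ x in Ioi (1 : ℝ), (Ici (nJ J)).indicator (fun x => c J * deriv g x) x = _
    rw [setIntegral_indicator measurableSet_Ici, setIntegral_congr_set (hset J),
      integral_const_mul, hgN _ (hn1 J), mul_neg]
  have hφn : ∀ J, ∫ x in Ioi (1 : ℝ), ‖φ J x‖ ≤ M / 3 * nJ J ^ (-(3 : ℝ)) := by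
    intro J
    have e1 : ∀ x, ‖φ J x‖ = (Ici (nJ J)).indicator (fun x => ‖c J * deriv g x‖) x := by
      intro x
      rw [hφ]
      exact norm_indicator_eq_indicator_norm _ _
    rw [integral_congr_ae (Eventually.of_forall e1), setIntegral_indicator measurableSet_Ici,
      setIntegral_congr_set (hset J)]
    have h2 : ∫ x in Ioi (nJ J), ‖c J * deriv g x‖ ≤ ∫ x in Ioi (nJ J), M * x ^ (-4 : ℝ) := by
      refine setIntegral_mono_on ((hdi _ (hn1 J)).const_mul (c J)).norm
        ((integrableOn_Ioi_rpow_of_lt (a := -4) (by norm_num) (hn0 J)).const_mul M)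
        measurableSet_Ioi fun x hx => ?_
      rw [norm_mul]
      have h3 := (hg x ((hn1 J).trans (le_of_lt hx))).2.2
      have h4 := mul_le_mul (hc J) h3 (norm_nonneg _) zero_le_one
      rwa [one_mul] at h4
    refine h2.trans (le_of_eq ?_)
    rw [integral_const_mul, integral_Ioi_rpow_of_lt (by norm_num) (hn0 J)]
    have h5 : (-4 : ℝ) + 1 = -3 := by norm_num
    rw [h5]
    ring
  have hφs : Summable fun J => ∫ x in Ioi (1 : ℝ), ‖φ J x‖ :=
    Summable.of_nonneg_of_le (fun J => integral_nonneg fun x => norm_nonneg _) hφn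
      ((hsum 3 (by norm_num)).mul_left (M / 3))
  have hmain := hasSum_integral_of_summable_integral_norm hφi hφs
  have hpt : ∀ x : ℝ, ∑' J, φ J x =
      (∑' J : {J : (Ideal (𝓞 K))⁰ // nJ J ≤ x}, c J) * deriv g x := by
    intro x
    have h1 : (∑' J : {J : (Ideal (𝓞 K))⁰ // nJ J ≤ x}, c J) =
        ∑' J, {J : (Ideal (𝓞 K))⁰ | nJ J ≤ x}.indicator c J :=
      tsum_subtype {J : (Ideal (𝓞 K))⁰ | nJ J ≤ x} c
    rw [h1, ← tsum_mul_right]
    refine tsum_congr fun J => ?_
    rw [hφ]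
    by_cases hx : nJ J ≤ x
    · have h2 : J ∈ {J : (Ideal (𝓞 K))⁰ | nJ J ≤ x} := hx
      have h3 : x ∈ Ici (nJ J) := hx
      change (Ici (nJ J)).indicator (fun x => c J * deriv g x) x = _
      rw [indicator_of_mem h2, indicator_of_mem h3]
    · have h2 : J ∉ {J : (Ideal (𝓞 K))⁰ | nJ J ≤ x} := hx
      have h3 : x ∉ Ici (nJ J) := hx
      change (Ici (nJ J)).indicator (fun x => c J * deriv g x) x = _
      rw [indicator_of_notMem h2, indicator_of_notMem h3, zero_mul]
  have hb : ∀ J (x : ℝ), 1 ≤ x → ‖φ J x‖ ≤ nJ J ^ (-(2 : ℝ)) * (M * x ^ (-2 : ℝ)) := by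
    intro J x hx
    have hx0 : 0 < x := by linarith
    rw [hφ]
    change ‖(Ici (nJ J)).indicator (fun x => c J * deriv g x) x‖ ≤ _
    by_cases hJ : nJ J ≤ x
    · have h3 : x ∈ Ici (nJ J) := hJ
      rw [indicator_of_mem h3, norm_mul]
      have h4 := mul_le_mul (hc J) (hg x hx).2.2 (norm_nonneg _) zero_le_one
      rw [one_mul] at h4
      refine h4.trans ?_
      have h5 : x ^ (-(4 : ℝ)) = x ^ (-2 : ℝ) * x ^ (-2 : ℝ) := by
        rw [← Real.rpow_add hx0]
        norm_num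
      have h6 : x ^ (-2 : ℝ) ≤ nJ J ^ (-(2 : ℝ)) :=
        Real.rpow_le_rpow_of_nonpos (hn0 J) hJ (by norm_num)
      rw [h5]
      have h7 : 0 ≤ M * x ^ (-2 : ℝ) := mul_nonneg hM (Real.rpow_nonneg hx0.le _)
      nlinarith [mul_le_mul_of_nonneg_right h6 h7]
    · have h3 : x ∉ Ici (nJ J) := hJ
      rw [indicator_of_notMem h3, norm_zero]
      have := Real.rpow_nonneg (hn0 J).le (-(2 : ℝ))
      have := Real.rpow_nonneg hx0.le (-2 : ℝ)
      positivity
  have hsx : ∀ x : ℝ, 1 ≤ x → Summable fun J => ‖φ J x‖ := fun x hx =>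
    Summable.of_nonneg_of_le (fun J => norm_nonneg _) (fun J => hb J x hx)
      ((hsum 2 (by norm_num)).mul_right _)
  have hInt : IntegrableOn (fun x => ∑' J, φ J x) (Ioi 1) := by
    refine Integrable.mono' (((integrableOn_Ioi_rpow_of_lt (a := -2) (by norm_num)
      one_pos).const_mul M).const_mul (∑' J : (Ideal (𝓞 K))⁰, nJ J ^ (-(2 : ℝ)))) ?_ ?_
    · refine aestronglyMeasurable_of_tendsto_ae (atTop : Filter (Finset (Ideal (𝓞 K))⁰))
        (f := fun s x => ∑ J ∈ s, φ J x) ?_ ?_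
      · intro s
        exact Finset.aestronglyMeasurable_fun_sum s fun J _ => (hφi J).aestronglyMeasurable
      · refine (ae_restrict_iff' measurableSet_Ioi).2 (Eventually.of_forall fun x hx => ?_)
        have h1 := (hsx x (le_of_lt hx)).of_norm.hasSum
        simpa [HasSum] using h1
    · refine (ae_restrict_iff' measurableSet_Ioi).2 (Eventually.of_forall fun x hx => ?_)
      have hx1 : (1 : ℝ) ≤ x := le_of_lt hx
      refine (norm_tsum_le_tsum_norm (hsx x hx1)).trans ?_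
      rw [← tsum_mul_right]
      exact (hsx x hx1).tsum_le_tsum (hb · x hx1) ((hsum 2 (by norm_num)).mul_right _)
  have hfun : (fun x => ∑' J, φ J x) = fun x : ℝ =>
      (∑' J : {J : (Ideal (𝓞 K))⁰ // nJ J ≤ x}, c J) * deriv g x := funext hpt
  rw [hfun] at hInt hmain
  refine ⟨hInt, ?_⟩
  have h1 : HasSum (fun J => -(c J * g (nJ J))) (-a) := ha.neg
  have h2 : HasSum (fun J => -(c J * g (nJ J)))
      (∫ x in Ioi (1 : ℝ), (∑' J : {J : (Ideal (𝓞 K))⁰ // nJ J ≤ x}, c J) * deriv g x) := by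
    refine hmain.congr_fun ?_
    exact fun J => (hφI J).symm
  rw [← h1.unique h2, neg_neg]

end Pool.Agent.H30.CM4
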