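import Pool.Agent.H23.CM4.Targets

/-!
# MP_52e316_nt, board `cm4_modules`: row CO2
-/

set_option autoImplicit false

open NumberField MeasureTheory Set Filter Complex
open scoped nonZeroDivisors Real

namespace Pool.Agent.H30.CM4

open Pool.Agent.H23.CM4
open Pool.Agent.H31.CN (IsLf)
open Pool.Agent.H61.FM (CC pv Sp)
open Pool.Agent.H65.CM4 (dg)

theorem pf_CO2 (hCO1 : T_CO1) (_hCMX : T_CMX) : T_CO2 := by
  intro k _ _ _ ε hε
  obtain ⟨C, A, hC, h⟩ := hCO1 k ε hε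
  refine ⟨C, A, hC, ?_⟩
  intro X η ι S K _ _ _ F hX hη0 hη1 hF hS
  have hex : ∀ i : {i // i ∈ S}, ∃ ψ : CC (K i.1), ∃ t : ℝ,
      (1 + |t|) ^ A * dK (K i.1) ^ (1 / 8 + η) < ‖F i.1 ψ (1 / 2 + t * I)‖ := fun i => hS i.1 i.2
  choose ψ hψ using hex
  let f : {i // i ∈ S} ↪ (Σ i, CC (K i)) := ⟨fun i => ⟨i.1, ψ i⟩, by
    intro i j hij
    have h1 : i.1 = j.1 := congrArg Sigma.fst hij
    exact Subtype.ext h1⟩
  have h2 := h X (1 / 8 + η) ι S K F (S.attach.map f) hX (by linarith) (by linarith) hF (by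
    intro p hp
    obtain ⟨i, _, rfl⟩ := Finset.mem_map.1 hp
    exact ⟨i.2, hψ i⟩)
  rw [Finset.card_map, Finset.card_attach] at h2
  have h3 : 3 / 2 - 4 * (1 / 8 + η) + ε = 1 - 4 * η + ε := by ring
  rwa [h3] at h2

end Pool.Agent.H30.CM4
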