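import Pool.Agent.H23.CM4.Targets
import Pool.Agent.H61.FM.SUP

/-!
# MP_52e316_nt, board `cm4_modules`: row FM1
-/

set_option autoImplicit false

open MeasureTheory Set Filter NumberField
open scoped Real nonZeroDivisors

namespace Pool.Agent.H30.CM4

open Pool.Agent.H23.CM4
open Pool.Agent.H31.CN (IsLf)
open Pool.Agent.H61.FM (CC pv Sp T_SUP pf_SUP)
open Pool.Agent.H65.CM4 (dg)

/-- the strip -/
def FM1St (κ : ℝ) : Set (ℝ × ℝ) := Icc (1 / 2 - κ) (1 / 2 + κ) ×ˢ (univ : Set ℝ)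

lemma FM1_meas_St (κ : ℝ) : MeasurableSet (FM1St κ) := measurableSet_Icc.prod MeasurableSet.univ

lemma FM1_int_g (κ : ℝ) : IntegrableOn (fun p : ℝ × ℝ => (1 + p.2 ^ 2)⁻¹) (FM1St κ) := by
  have h1 : IntegrableOn (fun _ : ℝ => (1 : ℝ)) (Icc (1 / 2 - κ) (1 / 2 + κ)) :=
    integrableOn_const (by
      rw [Real.volume_Icc]
      exact ENNReal.ofReal_ne_top)
  have h2 : IntegrableOn (fun y : ℝ => (1 + y ^ 2)⁻¹) (univ : Set ℝ) :=
    integrable_inv_one_add_sq.integrableOn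
  have h3 := Integrable.mul_prod h1 h2
  rw [Measure.prod_restrict] at h3
  simp only [one_mul] at h3
  exact h3

lemma FM1_wt_le (y : ℝ) (a b : ℕ) (h : a + 2 ≤ b) :
    (1 + |y|) ^ a / (1 + |y|) ^ b ≤ (1 + y ^ 2)⁻¹ := by
  have hy : 0 ≤ |y| := abs_nonneg y
  have h1 : (1 : ℝ) ≤ 1 + |y| := by linarith
  have h0 : (0 : ℝ) < 1 + |y| := by linarith
  have h2 : (1 + |y|) ^ a * (1 + y ^ 2) ≤ (1 + |y|) ^ b := by
    calc (1 + |y|) ^ a * (1 + y ^ 2) ≤ (1 + |y|) ^ a * (1 + |y|) ^ 2 := by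
          apply mul_le_mul_of_nonneg_left _ (by positivity)
          have h3 : y ^ 2 = |y| ^ 2 := (sq_abs y).symm
          rw [h3]
          nlinarith
      _ = (1 + |y|) ^ (a + 2) := by rw [pow_add]
      _ ≤ (1 + |y|) ^ b := pow_le_pow_right₀ h1 h
  rw [div_le_iff₀ (by positivity), inv_mul_eq_div, le_div_iff₀ (by positivity)]
  exact h2

theorem pf_FM1 (hFMS : T_FMS) (hTRB : T_TRB) (hCMX : T_CMX) : T_FM1 := by
  intro k _ _ _ ε hε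
  obtain ⟨κ, hκ, hκ8, C1, k1, hC1, hF⟩ := hFMS k ε hε
  obtain ⟨C2, hC2, hS2⟩ := pf_SUP κ hκ
  obtain ⟨C3, k3, hC3, hB⟩ := hTRB (dg k)
  obtain ⟨A, hA⟩ : ∃ A : ℕ, A = k1 + k3 + 1 := ⟨_, rfl⟩
  obtain ⟨I0, hI0⟩ : ∃ I0 : ℝ, I0 = ∫ p in FM1St κ, (1 + p.2 ^ 2)⁻¹ := ⟨_, rfl⟩
  have hI0n : 0 ≤ I0 := by
    rw [hI0]
    exact setIntegral_nonneg (FM1_meas_St κ) fun p _ => by positivity
  refine ⟨C2 * 2 ^ (4 * A) * (C1 * I0) + 1, A, by positivity, ?_⟩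
  intro X ι S K _ _ _ F t hX hS
  -- points of the strip
  have hre : ∀ p : ℝ × ℝ, ((p.1 : ℂ) + (p.2 : ℂ) * Complex.I).re = p.1 := by
    intro p
    simp
  have him : ∀ p : ℝ × ℝ, ((p.1 : ℂ) + (p.2 : ℂ) * Complex.I).im = p.2 := by
    intro p
    simp
  have hSt : ∀ p ∈ FM1St κ, |((p.1 : ℂ) + (p.2 : ℂ) * Complex.I).re - 1 / 2| ≤ κ := by
    intro p hp
    have h1 := hp.1
    rw [hre, abs_le]
    constructor
    · linarith [h1.1]
    · linarith [h1.2]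
  -- the integrands
  obtain ⟨h, hh⟩ : ∃ h : ∀ D, CC (K D) → ℝ × ℝ → ℝ, h = fun D ψ p =>
      ‖F D ψ ((p.1 : ℂ) + (p.2 : ℂ) * Complex.I)‖ ^ 4 / (1 + |p.2|) ^ (4 * A) := ⟨_, rfl⟩
  have hhn : ∀ D ψ p, 0 ≤ h D ψ p := by
    intro D ψ p
    rw [hh]
    positivity
  have hcont : Continuous (fun p : ℝ × ℝ => (p.1 : ℂ) + (p.2 : ℂ) * Complex.I) := by
    fun_prop
  have hint : ∀ D ∈ S, ∀ ψ : CC (K D), IntegrableOn (h D ψ) (FM1St κ) := by
    intro D hD ψ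
    have hL := hS.lf D hD
    have hIQ := hCMX.1 k (K D) (hS.cm D hD)
    have hFc : ContinuousOn (F D ψ) {1}ᶜ := (hL ψ).1.continuousOn
    have hmaps : MapsTo (fun p : ℝ × ℝ => (p.1 : ℂ) + (p.2 : ℂ) * Complex.I) (FM1St κ) {1}ᶜ := by
      intro p hp hcon
      have h1 : (p.1 : ℂ) + (p.2 : ℂ) * Complex.I = 1 := hcon
      have h2 := hSt p hp
      rw [h1, Complex.one_re, abs_le] at h2
      linarith [h2.2]
    have hhc : ContinuousOn (h D ψ) (FM1St κ) := by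
      rw [hh]
      refine ContinuousOn.div ((hFc.comp hcont.continuousOn hmaps).norm.pow 4) ?_ ?_
      · fun_prop
      · intro p _
        positivity
    have hg := (FM1_int_g κ).const_mul ((C3 * dK (K D) ^ 2) ^ 4)
    refine Integrable.mono' hg (hhc.aestronglyMeasurable (FM1_meas_St κ)) ?_
    refine (ae_restrict_iff' (FM1_meas_St κ)).2 (Eventually.of_forall fun p hp => ?_)
    rw [Real.norm_eq_abs, abs_of_nonneg (hhn D ψ p), hh]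
    have h2 := hB (K D) hIQ ψ (F D ψ) (hL ψ) ((p.1 : ℂ) + (p.2 : ℂ) * Complex.I)
      ((hSt p hp).trans hκ8)
    rw [him] at h2
    have h3 : ‖F D ψ ((p.1 : ℂ) + (p.2 : ℂ) * Complex.I)‖ ^ 4 ≤
        (C3 * dK (K D) ^ 2) ^ 4 * (1 + |p.2|) ^ (4 * k3) := by
      refine (pow_le_pow_left₀ (norm_nonneg _) h2 4).trans (le_of_eq ?_)
      rw [mul_comm 4 k3, pow_mul]
      ring
    calc ‖F D ψ ((p.1 : ℂ) + (p.2 : ℂ) * Complex.I)‖ ^ 4 / (1 + |p.2|) ^ (4 * A) ≤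
        (C3 * dK (K D) ^ 2) ^ 4 * (1 + |p.2|) ^ (4 * k3) / (1 + |p.2|) ^ (4 * A) :=
          div_le_div_of_nonneg_right h3 (by positivity)
      _ = (C3 * dK (K D) ^ 2) ^ 4 * ((1 + |p.2|) ^ (4 * k3) / (1 + |p.2|) ^ (4 * A)) := by ring
      _ ≤ (C3 * dK (K D) ^ 2) ^ 4 * (1 + p.2 ^ 2)⁻¹ :=
          mul_le_mul_of_nonneg_left (FM1_wt_le p.2 (4 * k3) (4 * A) (by omega)) (by positivity)
  -- each term
  have hterm : ∀ D ∈ S, ∀ ψ : CC (K D),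
      (‖F D ψ (1 / 2 + t D ψ * Complex.I)‖ / (1 + |t D ψ|) ^ A) ^ 4 ≤
        C2 * 2 ^ (4 * A) * ∫ p in FM1St κ, h D ψ p := by
    intro D hD ψ
    have hL := hS.lf D hD
    have hIQ := hCMX.1 k (K D) (hS.cm D hD)
    obtain ⟨τ, hτ⟩ : ∃ τ : ℝ, τ = t D ψ := ⟨_, rfl⟩
    rw [← hτ]
    have hd : DifferentiableOn ℂ (F D ψ) {s : ℂ | |s.re - 1 / 2| < 2 * κ} := by
      refine (hL ψ).1.mono fun s hs hcon => ?_
      have h1 : s = 1 := hcon
      have h2 : |s.re - 1 / 2| < 2 * κ := hs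
      rw [h1, Complex.one_re] at h2
      have h3 := (abs_lt.1 h2).2
      linarith
    have h1 := hS2 (F D ψ) τ hd
    have hτ0 : (0 : ℝ) < 1 + |τ| := by positivity
    have hbox : Icc (1 / 2 - κ) (1 / 2 + κ) ×ˢ Icc (τ - κ) (τ + κ) ⊆ FM1St κ :=
      prod_mono (Subset.refl _) (subset_univ _)
    have hmb : MeasurableSet (Icc (1 / 2 - κ) (1 / 2 + κ) ×ˢ Icc (τ - κ) (τ + κ)) :=
      measurableSet_Icc.prod measurableSet_Icc
    have hib : IntegrableOn (h D ψ) (Icc (1 / 2 - κ) (1 / 2 + κ) ×ˢ Icc (τ - κ) (τ + κ)) :=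
      (hint D hD ψ).mono_set hbox
    have h2 : ∫ p in Icc (1 / 2 - κ) (1 / 2 + κ) ×ˢ Icc (τ - κ) (τ + κ),
        ‖F D ψ ((p.1 : ℂ) + (p.2 : ℂ) * Complex.I)‖ ^ 4 ≤
        ∫ p in Icc (1 / 2 - κ) (1 / 2 + κ) ×ˢ Icc (τ - κ) (τ + κ),
          (2 * (1 + |τ|)) ^ (4 * A) * h D ψ p := by
      refine integral_mono_of_nonneg (Eventually.of_forall fun p => by positivity)
        (hib.const_mul _) ?_
      refine (ae_restrict_iff' hmb).2 (Eventually.of_forall fun p hp => ?_)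
      have hp2 := hp.2
      have h3 : 1 + |p.2| ≤ 2 * (1 + |τ|) := by
        have h4 : |p.2 - τ| ≤ κ := by
          rw [abs_le]
          constructor
          · linarith [hp2.1]
          · linarith [hp2.2]
        have h5 : |p.2| ≤ |p.2 - τ| + |τ| := by
          have h6 := abs_add_le (p.2 - τ) τ
          rwa [sub_add_cancel] at h6
        have h7 := abs_nonneg τ
        linarith
      have h4 : (1 + |p.2|) ^ (4 * A) ≤ (2 * (1 + |τ|)) ^ (4 * A) :=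
        pow_le_pow_left₀ (by positivity) h3 _
      change ‖F D ψ ((p.1 : ℂ) + (p.2 : ℂ) * Complex.I)‖ ^ 4 ≤
        (2 * (1 + |τ|)) ^ (4 * A) * h D ψ p
      rw [hh]
      change ‖F D ψ ((p.1 : ℂ) + (p.2 : ℂ) * Complex.I)‖ ^ 4 ≤ (2 * (1 + |τ|)) ^ (4 * A) *
        (‖F D ψ ((p.1 : ℂ) + (p.2 : ℂ) * Complex.I)‖ ^ 4 / (1 + |p.2|) ^ (4 * A))
      rw [mul_div_assoc', le_div_iff₀ (by positivity), mul_comm]
      exact mul_le_mul_of_nonneg_right h4 (by positivity)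
    have h3 : ∫ p in Icc (1 / 2 - κ) (1 / 2 + κ) ×ˢ Icc (τ - κ) (τ + κ),
        (2 * (1 + |τ|)) ^ (4 * A) * h D ψ p ≤ (2 * (1 + |τ|)) ^ (4 * A) * ∫ p in FM1St κ, h D ψ p := by
      rw [integral_const_mul]
      refine mul_le_mul_of_nonneg_left ?_ (by positivity)
      exact setIntegral_mono_set (hint D hD ψ) (Eventually.of_forall fun p => hhn D ψ p)
        (Eventually.of_forall fun p hp => hbox hp)
    have h4 : ‖F D ψ (1 / 2 + τ * Complex.I)‖ ^ 4 ≤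
        C2 * ((2 * (1 + |τ|)) ^ (4 * A) * ∫ p in FM1St κ, h D ψ p) :=
      h1.trans (mul_le_mul_of_nonneg_left (h2.trans h3) hC2.le)
    rw [div_pow, ← pow_mul, div_le_iff₀ (by positivity)]
    refine h4.trans (le_of_eq ?_)
    rw [mul_pow, mul_comm A 4]
    ring
  -- the sum
  have hsum1 : ∑ D ∈ S, ∑ ψ : CC (K D),
      (‖F D ψ (1 / 2 + t D ψ * Complex.I)‖ / (1 + |t D ψ|) ^ A) ^ 4 ≤
      C2 * 2 ^ (4 * A) * ∑ D ∈ S, ∑ ψ : CC (K D), ∫ p in FM1St κ, h D ψ p := by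
    rw [Finset.mul_sum]
    refine Finset.sum_le_sum fun D hD => ?_
    rw [Finset.mul_sum]
    exact Finset.sum_le_sum fun ψ _ => hterm D hD ψ
  have hsum2 : ∑ D ∈ S, ∑ ψ : CC (K D), ∫ p in FM1St κ, h D ψ p =
      ∫ p in FM1St κ, ∑ D ∈ S, ∑ ψ : CC (K D), h D ψ p := by
    rw [integral_finsetSum _ (fun D hD => integrable_finsetSum _ fun ψ _ => hint D hD ψ)]
    refine Finset.sum_congr rfl fun D hD => ?_
    rw [integral_finsetSum _ (fun ψ _ => hint D hD ψ)]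
  have hsum3 : ∫ p in FM1St κ, ∑ D ∈ S, ∑ ψ : CC (K D), h D ψ p ≤
      ∫ p in FM1St κ, C1 * X ^ (3 / 2 + ε) * (1 + p.2 ^ 2)⁻¹ := by
    refine setIntegral_mono_on
      (integrable_finsetSum _ fun D hD => integrable_finsetSum _ fun ψ _ => hint D hD ψ)
      ((FM1_int_g κ).const_mul _) (FM1_meas_St κ) ?_
    intro p hp
    have h1 := hF ((p.1 : ℂ) + (p.2 : ℂ) * Complex.I) X ι S K F (hSt p hp) hX hS
    rw [him] at h1
    have h2 : ∑ D ∈ S, ∑ ψ : CC (K D), h D ψ p =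
        (∑ D ∈ S, ∑ ψ : CC (K D), ‖F D ψ ((p.1 : ℂ) + (p.2 : ℂ) * Complex.I)‖ ^ 4) /
          (1 + |p.2|) ^ (4 * A) := by
      rw [Finset.sum_div]
      refine Finset.sum_congr rfl fun D _ => ?_
      rw [Finset.sum_div, hh]
    rw [h2]
    have hXp : 0 ≤ C1 * X ^ (3 / 2 + ε) :=
      mul_nonneg hC1.le (Real.rpow_nonneg (by linarith) _)
    calc (∑ D ∈ S, ∑ ψ : CC (K D), ‖F D ψ ((p.1 : ℂ) + (p.2 : ℂ) * Complex.I)‖ ^ 4) /
          (1 + |p.2|) ^ (4 * A) ≤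
          C1 * (1 + |p.2|) ^ k1 * X ^ (3 / 2 + ε) / (1 + |p.2|) ^ (4 * A) :=
          div_le_div_of_nonneg_right h1 (by positivity)
      _ = C1 * X ^ (3 / 2 + ε) * ((1 + |p.2|) ^ k1 / (1 + |p.2|) ^ (4 * A)) := by ring
      _ ≤ C1 * X ^ (3 / 2 + ε) * (1 + p.2 ^ 2)⁻¹ :=
          mul_le_mul_of_nonneg_left (FM1_wt_le p.2 k1 (4 * A) (by omega)) hXp
  have hsum4 : ∫ p in FM1St κ, C1 * X ^ (3 / 2 + ε) * (1 + p.2 ^ 2)⁻¹ =
      C1 * X ^ (3 / 2 + ε) * I0 := by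
    rw [integral_const_mul, hI0]
  have hfin := hsum1.trans (mul_le_mul_of_nonneg_left
    ((hsum2.le.trans hsum3).trans hsum4.le) (by positivity : (0 : ℝ) ≤ C2 * 2 ^ (4 * A)))
  refine hfin.trans ?_
  have hXp : 0 ≤ X ^ (3 / 2 + ε) := Real.rpow_nonneg (by linarith) _
  nlinarith

end Pool.Agent.H30.CM4
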