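import Pool.Agent.H23.CM4.Targets

/-!
# MP_52e316_nt, board `cm4_modules`: row FMS, the fourth moment at a point near the critical line
-/

set_option autoImplicit false

open NumberField MeasureTheory Set Filter Complex
open scoped nonZeroDivisors Real

namespace Pool.Agent.H30.CM4

open Pool.Agent.H23.CM4
open Pool.Agent.H31.CN (IsLf)
open Pool.Agent.H61.FM (CC pv Sp)
open Pool.Agent.H65.CM4 (dg)

/-- Cauchy-Schwarz -/
theorem FMS_cs {α : Type*} [MeasurableSpace α] {μ : Measure α} {f g : α → ℝ}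
    (h1 : Integrable (fun x => f x ^ 2) μ) (h2 : Integrable (fun x => f x * g x) μ)
    (h3 : Integrable (fun x => g x ^ 2) μ) :
    (∫ x, f x * g x ∂μ) ^ 2 ≤ (∫ x, f x ^ 2 ∂μ) * ∫ x, g x ^ 2 ∂μ := by
  have key : ∀ t : ℝ, 0 ≤ (∫ x, g x ^ 2 ∂μ) * (t * t) + (2 * ∫ x, f x * g x ∂μ) * t +
      ∫ x, f x ^ 2 ∂μ := by
    intro t
    have e : ∫ x, (f x + t * g x) ^ 2 ∂μ = (∫ x, g x ^ 2 ∂μ) * (t * t) +
        (2 * ∫ x, f x * g x ∂μ) * t + ∫ x, f x ^ 2 ∂μ := by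
      have e1 : (fun x => (f x + t * g x) ^ 2) =
          fun x => (f x ^ 2 + (2 * t) * (f x * g x)) + t ^ 2 * g x ^ 2 := by
        ext x; ring
      have h2' : Integrable (fun x => (2 * t) * (f x * g x)) μ := h2.const_mul _
      have h3' : Integrable (fun x => t ^ 2 * g x ^ 2) μ := h3.const_mul _
      have h12 : Integrable (fun x => f x ^ 2 + (2 * t) * (f x * g x)) μ := h1.add h2'
      rw [e1, integral_add h12 h3', integral_add h1 h2', integral_const_mul, integral_const_mul]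
      ring
    rw [← e]
    exact integral_nonneg fun x => sq_nonneg _
  have := discrim_le_zero key
  unfold discrim at this
  nlinarith

theorem FMS_wpos {n : ℕ} {X x : ℝ} (hx : 0 < x) : 0 < wB n X x := by
  unfold wB
  have : 0 ≤ x / Real.sqrt X := div_nonneg hx.le (Real.sqrt_nonneg _)
  positivity

theorem FMS_wmeas (n : ℕ) (X : ℝ) : Measurable fun x => wB n X x := by
  unfold wB
  exact ((measurable_const.add (measurable_id.div_const _)).pow_const _).inv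

theorem FMS_wmono {n : ℕ} {D X x : ℝ} (hD : 0 < D) (hDX : D ≤ X) (hx : 0 < x) :
    wB n D x ≤ wB n X x := by
  unfold wB
  have h1 : Real.sqrt D ≤ Real.sqrt X := Real.sqrt_le_sqrt hDX
  have h2 : 0 < Real.sqrt D := Real.sqrt_pos.2 hD
  have h3 : x / Real.sqrt X ≤ x / Real.sqrt D := div_le_div_of_nonneg_left hx.le h2 h1
  have h4 : 0 ≤ x / Real.sqrt X := div_nonneg hx.le (Real.sqrt_nonneg _)
  exact inv_anti₀ (by positivity) (pow_le_pow_left₀ (by positivity) (by linarith) n)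

theorem FMS_wprod {B : ℕ} {X x ε : ℝ} (hX : 1 ≤ X) (hx : 0 < x) (hε : 0 < ε) (hε1 : ε ≤ 1) :
    wB (B + 4) X x ≤ wB B X x * (X ^ ε * x ^ (-2 * ε)) := by
  have hX0 : 0 < X := by linarith
  have hs : 0 < Real.sqrt X := Real.sqrt_pos.2 hX0
  have hy : 0 < x / Real.sqrt X := by positivity
  have h1 : (x / Real.sqrt X) ^ (2 * ε) ≤ (1 + x / Real.sqrt X) ^ (4 : ℕ) := by
    calc (x / Real.sqrt X) ^ (2 * ε) ≤ (1 + x / Real.sqrt X) ^ (2 * ε) :=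
          Real.rpow_le_rpow hy.le (by linarith) (by linarith)
      _ ≤ (1 + x / Real.sqrt X) ^ (4 : ℝ) :=
          Real.rpow_le_rpow_of_exponent_le (by linarith) (by linarith)
      _ = (1 + x / Real.sqrt X) ^ (4 : ℕ) := by
          rw [← Real.rpow_natCast]
          norm_num
  have h2 : ((1 + x / Real.sqrt X) ^ (4 : ℕ))⁻¹ ≤ X ^ ε * x ^ (-2 * ε) := by
    have h3 : X ^ ε * x ^ (-2 * ε) = ((x / Real.sqrt X) ^ (2 * ε))⁻¹ := by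
      rw [Real.div_rpow hx.le hs.le, inv_div, Real.sqrt_eq_rpow, ← Real.rpow_mul hX0.le,
        div_eq_mul_inv, ← Real.rpow_neg hx.le]
      congr 2
      · ring
      · ring
    rw [h3]
    exact inv_anti₀ (Real.rpow_pos_of_pos hy _) h1
  have h3 : wB (B + 4) X x = wB B X x * ((1 + x / Real.sqrt X) ^ (4 : ℕ))⁻¹ := by
    unfold wB
    rw [pow_add, mul_inv]
  rw [h3]
  exact mul_le_mul_of_nonneg_left h2 (FMS_wpos hx).le

theorem FMS_w4 {B : ℕ} {X x : ℝ} (hX : 1 ≤ X) (hx : 0 < x) :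
    wB (B + 4) X x ≤ X ^ 2 * x ^ (-4 : ℝ) := by
  have hX0 : 0 < X := by linarith
  have hs : 0 < Real.sqrt X := Real.sqrt_pos.2 hX0
  have hy : 0 < x / Real.sqrt X := by positivity
  have h1 : (x / Real.sqrt X) ^ 4 ≤ (1 + x / Real.sqrt X) ^ (B + 4) := by
    calc (x / Real.sqrt X) ^ 4 ≤ (1 + x / Real.sqrt X) ^ 4 :=
          pow_le_pow_left₀ hy.le (by linarith) 4
      _ ≤ _ := pow_le_pow_right₀ (by linarith) (by omega)
  have h2 : ((x / Real.sqrt X) ^ 4)⁻¹ = X ^ 2 * x ^ (-4 : ℝ) := by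
    have h3 : Real.sqrt X ^ 4 = X ^ 2 := by
      have h4 : Real.sqrt X ^ 2 = X := Real.sq_sqrt hX0.le
      calc Real.sqrt X ^ 4 = (Real.sqrt X ^ 2) ^ 2 := by ring
        _ = X ^ 2 := by rw [h4]
    have h5 : x ^ (-4 : ℝ) = (x ^ 4)⁻¹ := by
      rw [Real.rpow_neg hx.le]
      congr 1
      rw [← Real.rpow_natCast]
      norm_num
    rw [div_pow, inv_div, h3, h5, div_eq_mul_inv]
  rw [← h2]
  exact inv_anti₀ (by positivity) h1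

theorem FMS_one_le {B : ℕ} {X x : ℝ} (hx : 0 < x) : wB B X x ≤ 1 := by
  unfold wB
  have : 0 ≤ x / Real.sqrt X := div_nonneg hx.le (Real.sqrt_nonneg _)
  exact inv_le_one_of_one_le₀ (one_le_pow₀ (by linarith))

/-- the square of the partial sums with weights is integrable -/
theorem FMS_sq {S : ℝ → ℂ} {C0 X : ℝ} {B : ℕ} (hm : Measurable S)
    (hS : ∀ x : ℝ, 1 ≤ x → ‖S x‖ ≤ C0 * x ^ 2) (hX : 1 ≤ X) :
    IntegrableOn (fun x : ℝ => ‖S x‖ ^ 2 * (x ^ (-2 : ℝ) * wB (B + 4) X x)) (Ioi 1) := by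
  refine Integrable.mono' ((integrableOn_Ioi_rpow_of_lt (a := -2) (by norm_num)
    one_pos).const_mul (C0 ^ 2 * X ^ 2)) ?_ ?_
  · refine Measurable.aestronglyMeasurable ?_
    exact (hm.norm.pow_const 2).mul ((measurable_id.pow_const _).mul (FMS_wmeas _ _))
  · refine (ae_restrict_iff' measurableSet_Ioi).2 (Eventually.of_forall fun x hx => ?_)
    have hx1 : (1 : ℝ) < x := hx
    have hx0 : (0 : ℝ) < x := by linarith
    have hw := FMS_wpos (n := B + 4) (X := X) hx0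
    have p0 : 0 < x ^ (-2 : ℝ) := Real.rpow_pos_of_pos hx0 _
    rw [Real.norm_of_nonneg (by positivity)]
    have h3 : ‖S x‖ ^ 2 ≤ C0 ^ 2 * x ^ (4 : ℝ) := by
      have h4 : ‖S x‖ ^ 2 ≤ (C0 * x ^ 2) ^ 2 :=
        pow_le_pow_left₀ (norm_nonneg _) (hS x hx1.le) 2
      have h5 : x ^ (4 : ℝ) = x ^ 4 := by
        rw [show (4 : ℝ) = ((4 : ℕ) : ℝ) by norm_num, Real.rpow_natCast]
      rw [h5]
      calc ‖S x‖ ^ 2 ≤ (C0 * x ^ 2) ^ 2 := h4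
        _ = C0 ^ 2 * x ^ 4 := by ring
    have h6 : x ^ (4 : ℝ) * x ^ (-4 : ℝ) = 1 := by
      rw [← Real.rpow_add hx0]
      norm_num
    have p4 : 0 < x ^ (4 : ℝ) := Real.rpow_pos_of_pos hx0 _
    calc ‖S x‖ ^ 2 * (x ^ (-2 : ℝ) * wB (B + 4) X x)
        ≤ (C0 ^ 2 * x ^ (4 : ℝ)) * (x ^ (-2 : ℝ) * (X ^ 2 * x ^ (-4 : ℝ))) := by
          refine mul_le_mul h3 ?_ (by positivity) (by positivity)
          exact mul_le_mul_of_nonneg_left (FMS_w4 hX hx0) p0.le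
      _ = C0 ^ 2 * X ^ 2 * x ^ (-2 : ℝ) * (x ^ (4 : ℝ) * x ^ (-4 : ℝ)) := by ring
      _ = C0 ^ 2 * X ^ 2 * x ^ (-2 : ℝ) := by rw [h6, mul_one]

theorem FMS_fg {S : ℝ → ℂ} {C0 X : ℝ} {B : ℕ} (hm : Measurable S)
    (hS : ∀ x : ℝ, 1 ≤ x → ‖S x‖ ≤ C0 * x ^ 2) (hX : 1 ≤ X) :
    IntegrableOn (fun x : ℝ => ‖S x‖ * x ^ (-(3 / 2) : ℝ) * wB (B + 4) X x) (Ioi 1) := by
  have hC0 : 0 ≤ C0 := by
    have h1 := (norm_nonneg _).trans (hS 1 le_rfl)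
    linarith
  refine Integrable.mono' ((integrableOn_Ioi_rpow_of_lt (a := -2) (by norm_num)
    one_pos).const_mul (C0 * X ^ 2)) ?_ ?_
  · refine Measurable.aestronglyMeasurable ?_
    exact (hm.norm.mul (measurable_id.pow_const _)).mul (FMS_wmeas _ _)
  · refine (ae_restrict_iff' measurableSet_Ioi).2 (Eventually.of_forall fun x hx => ?_)
    have hx1 : (1 : ℝ) < x := hx
    have hx0 : (0 : ℝ) < x := by linarith
    have hw := FMS_wpos (n := B + 4) (X := X) hx0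
    have p0 : 0 < x ^ (-(3 / 2) : ℝ) := Real.rpow_pos_of_pos hx0 _
    rw [Real.norm_of_nonneg (by positivity)]
    have h3 : ‖S x‖ ≤ C0 * x ^ (2 : ℝ) := by
      rw [Real.rpow_two]
      exact hS x hx1.le
    have p2 : 0 < x ^ (2 : ℝ) := Real.rpow_pos_of_pos hx0 _
    have h6 : x ^ (2 : ℝ) * x ^ (-(3 / 2) : ℝ) * x ^ (-4 : ℝ) ≤ x ^ (-2 : ℝ) := by
      rw [← Real.rpow_add hx0, ← Real.rpow_add hx0]
      exact Real.rpow_le_rpow_of_exponent_le hx1.le (by norm_num)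
    calc ‖S x‖ * x ^ (-(3 / 2) : ℝ) * wB (B + 4) X x
        ≤ (C0 * x ^ (2 : ℝ)) * x ^ (-(3 / 2) : ℝ) * (X ^ 2 * x ^ (-4 : ℝ)) := by
          refine mul_le_mul ?_ (FMS_w4 hX hx0) hw.le (by positivity)
          exact mul_le_mul_of_nonneg_right h3 p0.le
      _ = C0 * X ^ 2 * (x ^ (2 : ℝ) * x ^ (-(3 / 2) : ℝ) * x ^ (-4 : ℝ)) := by ring
      _ ≤ C0 * X ^ 2 * x ^ (-2 : ℝ) := mul_le_mul_of_nonneg_left h6 (by positivity)

/-- the square of the weighted integral of the partial sums -/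
theorem FMS_sqle {S : ℝ → ℂ} {C0 X ε : ℝ} {B : ℕ} (hm : Measurable S)
    (hS : ∀ x : ℝ, 1 ≤ x → ‖S x‖ ≤ C0 * x ^ 2) (hX : 1 ≤ X) (hε : 0 < ε) (hε1 : ε ≤ 1) :
    (∫ x in Ioi (1 : ℝ), ‖S x‖ * x ^ (-(3 / 2) : ℝ) * wB (B + 4) X x) ^ 2 ≤
      X ^ ε * (1 / (2 * ε)) * ∫ x in Ioi (1 : ℝ),
        ‖S x‖ ^ 2 * (x ^ (-2 : ℝ) * wB (B + 4) X x) := by
  have hX0 : 0 < X := by linarith
  have hi := FMS_fg (B := B) hm hS hX
  have h3' := FMS_sq (B := B) hm hS hX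
  have hu : IntegrableOn (fun x : ℝ => X ^ ε * x ^ (-1 - 2 * ε)) (Ioi 1) :=
    (integrableOn_Ioi_rpow_of_lt (by linarith) one_pos).const_mul _
  have hub : ∀ x ∈ Ioi (1 : ℝ), x ^ (-1 : ℝ) * wB (B + 4) X x ≤ X ^ ε * x ^ (-1 - 2 * ε) := by
    intro x hx
    have hx0 : (0 : ℝ) < x := lt_trans zero_lt_one hx
    have h1 := FMS_wprod (B := B) hX hx0 hε hε1
    have h2 : wB B X x * (X ^ ε * x ^ (-2 * ε)) ≤ X ^ ε * x ^ (-2 * ε) :=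
      mul_le_of_le_one_left (mul_nonneg (Real.rpow_nonneg hX0.le _)
        (Real.rpow_nonneg hx0.le _)) (FMS_one_le hx0)
    have h4 : x ^ (-1 - 2 * ε) = x ^ (-1 : ℝ) * x ^ (-2 * ε) := by
      rw [← Real.rpow_add hx0]
      congr 1
      ring
    rw [h4]
    calc x ^ (-1 : ℝ) * wB (B + 4) X x ≤ x ^ (-1 : ℝ) * (X ^ ε * x ^ (-2 * ε)) :=
          mul_le_mul_of_nonneg_left (h1.trans h2) (Real.rpow_nonneg hx0.le _)
      _ = _ := by ring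
  have h1' : IntegrableOn (fun x : ℝ => x ^ (-1 : ℝ) * wB (B + 4) X x) (Ioi 1) := by
    refine Integrable.mono' hu ?_ ?_
    · exact ((measurable_id.pow_const _).mul (FMS_wmeas _ _)).aestronglyMeasurable
    · refine (ae_restrict_iff' measurableSet_Ioi).2 (Eventually.of_forall fun x hx => ?_)
      have hx0 : (0 : ℝ) < x := lt_trans zero_lt_one hx
      rw [Real.norm_of_nonneg (mul_nonneg (Real.rpow_nonneg hx0.le _) (FMS_wpos hx0).le)]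
      exact hub x hx
  have hsq : ∀ x : ℝ, 0 < x → Real.sqrt (wB (B + 4) X x) * Real.sqrt (wB (B + 4) X x) =
      wB (B + 4) X x := fun x hx => Real.mul_self_sqrt (FMS_wpos hx).le
  have e1 : EqOn (fun x : ℝ => x ^ (-1 : ℝ) * wB (B + 4) X x)
      (fun x : ℝ => (x ^ (-(1 / 2) : ℝ) * Real.sqrt (wB (B + 4) X x)) ^ 2) (Ioi 1) := by
    intro x hx
    have hx0 : (0 : ℝ) < x := lt_trans zero_lt_one hx
    have h4 : x ^ (-1 : ℝ) = x ^ (-(1 / 2) : ℝ) * x ^ (-(1 / 2) : ℝ) := by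
      rw [← Real.rpow_add hx0]
      norm_num
    show x ^ (-1 : ℝ) * wB (B + 4) X x =
      (x ^ (-(1 / 2) : ℝ) * Real.sqrt (wB (B + 4) X x)) ^ 2
    calc x ^ (-1 : ℝ) * wB (B + 4) X x = x ^ (-(1 / 2) : ℝ) * x ^ (-(1 / 2) : ℝ) *
          (Real.sqrt (wB (B + 4) X x) * Real.sqrt (wB (B + 4) X x)) := by rw [hsq x hx0, h4]
      _ = _ := by ring
  have e2 : EqOn (fun x : ℝ => ‖S x‖ * x ^ (-(3 / 2) : ℝ) * wB (B + 4) X x)
      (fun x : ℝ => (x ^ (-(1 / 2) : ℝ) * Real.sqrt (wB (B + 4) X x)) *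
        (‖S x‖ * x ^ (-1 : ℝ) * Real.sqrt (wB (B + 4) X x))) (Ioi 1) := by
    intro x hx
    have hx0 : (0 : ℝ) < x := lt_trans zero_lt_one hx
    have h4 : x ^ (-(3 / 2) : ℝ) = x ^ (-(1 / 2) : ℝ) * x ^ (-1 : ℝ) := by
      rw [← Real.rpow_add hx0]
      norm_num
    show ‖S x‖ * x ^ (-(3 / 2) : ℝ) * wB (B + 4) X x =
      (x ^ (-(1 / 2) : ℝ) * Real.sqrt (wB (B + 4) X x)) *
        (‖S x‖ * x ^ (-1 : ℝ) * Real.sqrt (wB (B + 4) X x))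
    rw [h4]
    calc ‖S x‖ * (x ^ (-(1 / 2) : ℝ) * x ^ (-1 : ℝ)) * wB (B + 4) X x =
        ‖S x‖ * (x ^ (-(1 / 2) : ℝ) * x ^ (-1 : ℝ)) *
          (Real.sqrt (wB (B + 4) X x) * Real.sqrt (wB (B + 4) X x)) := by rw [hsq x hx0]
      _ = _ := by ring
  have e3 : EqOn (fun x : ℝ => ‖S x‖ ^ 2 * (x ^ (-2 : ℝ) * wB (B + 4) X x))
      (fun x : ℝ => (‖S x‖ * x ^ (-1 : ℝ) * Real.sqrt (wB (B + 4) X x)) ^ 2) (Ioi 1) := by
    intro x hx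
    have hx0 : (0 : ℝ) < x := lt_trans zero_lt_one hx
    have h4 : x ^ (-2 : ℝ) = x ^ (-1 : ℝ) * x ^ (-1 : ℝ) := by
      rw [← Real.rpow_add hx0]
      norm_num
    show ‖S x‖ ^ 2 * (x ^ (-2 : ℝ) * wB (B + 4) X x) =
      (‖S x‖ * x ^ (-1 : ℝ) * Real.sqrt (wB (B + 4) X x)) ^ 2
    rw [h4]
    calc ‖S x‖ ^ 2 * (x ^ (-1 : ℝ) * x ^ (-1 : ℝ) * wB (B + 4) X x) =
        ‖S x‖ ^ 2 * (x ^ (-1 : ℝ) * x ^ (-1 : ℝ) *
          (Real.sqrt (wB (B + 4) X x) * Real.sqrt (wB (B + 4) X x))) := by rw [hsq x hx0]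
      _ = _ := by ring
  have key := FMS_cs (h1'.congr_fun e1 measurableSet_Ioi) (hi.congr_fun e2 measurableSet_Ioi)
    (h3'.congr_fun e3 measurableSet_Ioi)
  rw [← setIntegral_congr_fun measurableSet_Ioi e1, ← setIntegral_congr_fun measurableSet_Ioi e2,
    ← setIntegral_congr_fun measurableSet_Ioi e3] at key
  refine key.trans (mul_le_mul_of_nonneg_right ?_ ?_)
  · refine (setIntegral_mono_on h1' hu measurableSet_Ioi hub).trans (le_of_eq ?_)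
    rw [integral_const_mul, integral_Ioi_rpow_of_lt (by linarith) zero_lt_one, Real.one_rpow,
      show -1 - 2 * ε + 1 = -(2 * ε) by ring, neg_div_neg_eq]
  · refine setIntegral_nonneg measurableSet_Ioi fun x hx => ?_
    have hx0 : (0 : ℝ) < x := lt_trans zero_lt_one hx
    exact mul_nonneg (sq_nonneg _) (mul_nonneg (Real.rpow_nonneg hx0.le _) (FMS_wpos hx0).le)

theorem pf_FMS (hMOT : T_MOT) (hPBD : T_PBD) (hSPT : T_SPT) (hCMX : T_CMX) : T_FMS := by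
  intro k _ _ _ ε hε
  obtain ⟨ε1, hε1⟩ : ∃ ε1, ε1 = min (ε / 8) 1 := ⟨_, rfl⟩
  have hε1p : 0 < ε1 := by rw [hε1]; exact lt_min (by positivity) one_pos
  have hε1e : ε1 ≤ ε / 8 := by rw [hε1]; exact min_le_left _ _
  have hε1o : ε1 ≤ 1 := by rw [hε1]; exact min_le_right _ _
  obtain ⟨κ0, hκ0, hκ8, B, C2, k2, hC2, hM⟩ := hMOT k ε1 hε1p
  obtain ⟨κ, hκ⟩ : ∃ κ, κ = min κ0 (ε1 / 4) := ⟨_, rfl⟩
  have hκpos : 0 < κ := by rw [hκ]; exact lt_min hκ0 (by positivity)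
  have hκκ : κ ≤ κ0 := by rw [hκ]; exact min_le_left _ _
  have hκε : κ ≤ ε1 / 4 := by rw [hκ]; exact min_le_right _ _
  have hκle : κ ≤ 1 / 8 := hκκ.trans hκ8
  obtain ⟨C1, k1, hC1, hP⟩ := hPBD (dg k) B κ hκpos hκle
  obtain ⟨C0, hC0, hS⟩ := hSPT (2 * dg k)
  refine ⟨κ, hκpos, hκle, C1 ^ 2 * (1 / (2 * ε1)) * C2 * (1 / ε1), 2 * k1 + k2, by positivity, ?_⟩
  intro s X ι S K _ _ _ F hs hX hF
  obtain ⟨T, hT⟩ : ∃ T, T = 1 + |s.im| := ⟨_, rfl⟩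
  have hT1 : 1 ≤ T := by rw [hT]; linarith [abs_nonneg s.im]
  have hT0 : 0 < T := by linarith
  have hX0 : 0 < X := by linarith
  rw [← hT]
  have hM3 : ∀ x : ℝ, 1 ≤ x → (∑ i ∈ S, ∑ ψ : CC (K i), ‖Sp ψ x‖ ^ 2 * ‖F i ψ s‖ ^ 2) *
      wB B X x ≤ C2 * T ^ k2 * X ^ (3 / 2 + ε1) * x ^ (1 + ε1) := by
    intro x hx
    rw [hT]
    exact hM s X x ι S K F (hs.trans hκκ) hX hx hF
  have hsp : ∀ i ∈ S, ∀ ψ : CC (K i), Measurable (Sp ψ) ∧ ∀ x : ℝ, 1 ≤ x →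
      ‖Sp ψ x‖ ≤ C0 * x ^ 2 := fun i hi ψ =>
    hS (K i) (hCMX.1 k (K i) (hF.cm i hi)).rk ψ
  have hint : ∀ i ∈ S, ∀ ψ : CC (K i), IntegrableOn (fun x : ℝ =>
      ‖Sp ψ x‖ ^ 2 * ‖F i ψ s‖ ^ 2 * (x ^ (-2 : ℝ) * wB (B + 4) X x)) (Ioi 1) := by
    intro i hi ψ
    obtain ⟨h1, h2⟩ := hsp i hi ψ
    have h3 : IntegrableOn (fun x : ℝ => ‖F i ψ s‖ ^ 2 * (‖Sp ψ x‖ ^ 2 *
        (x ^ (-2 : ℝ) * wB (B + 4) X x))) (Ioi 1) :=
      (FMS_sq h1 h2 hX).const_mul _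
    refine h3.congr_fun ?_ measurableSet_Ioi
    intro x _
    show ‖F i ψ s‖ ^ 2 * (‖Sp ψ x‖ ^ 2 * (x ^ (-2 : ℝ) * wB (B + 4) X x)) =
      ‖Sp ψ x‖ ^ 2 * ‖F i ψ s‖ ^ 2 * (x ^ (-2 : ℝ) * wB (B + 4) X x)
    ring
  have hfour : ∀ i ∈ S, ∀ ψ : CC (K i), ‖F i ψ s‖ ^ 4 ≤
      C1 ^ 2 * T ^ (2 * k1) * X ^ (4 * κ) * (X ^ ε1 * (1 / (2 * ε1))) * ∫ x in Ioi (1 : ℝ),
        ‖Sp ψ x‖ ^ 2 * ‖F i ψ s‖ ^ 2 * (x ^ (-2 : ℝ) * wB (B + 4) X x) := by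
    intro i hi ψ
    obtain ⟨h1, h2⟩ := hsp i hi ψ
    obtain ⟨hi', hb⟩ := hP (K i) (hCMX.1 k (K i) (hF.cm i hi)) ψ (F i ψ) (hF.lf i hi ψ) s hs
    rw [← hT] at hb
    have hD1 : 1 ≤ dK (K i) := hCMX.2 (K i)
    have hD0 : 0 < dK (K i) := by linarith
    have hDX : dK (K i) ≤ X := hF.hi i hi
    have h3 := FMS_sqle (B := B) h1 h2 hX hε1p hε1o
    have e1 : ∫ x in Ioi (1 : ℝ), ‖Sp ψ x‖ ^ 2 * ‖F i ψ s‖ ^ 2 *
        (x ^ (-2 : ℝ) * wB (B + 4) X x) = ‖F i ψ s‖ ^ 2 *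
        ∫ x in Ioi (1 : ℝ), ‖Sp ψ x‖ ^ 2 * (x ^ (-2 : ℝ) * wB (B + 4) X x) := by
      rw [← integral_const_mul]
      refine integral_congr_ae (Eventually.of_forall fun x => ?_)
      show ‖Sp ψ x‖ ^ 2 * ‖F i ψ s‖ ^ 2 * (x ^ (-2 : ℝ) * wB (B + 4) X x) = ‖F i ψ s‖ ^ 2 *
        (‖Sp ψ x‖ ^ 2 * (x ^ (-2 : ℝ) * wB (B + 4) X x))
      ring
    rw [e1]
    have hmono : ∫ x in Ioi (1 : ℝ), ‖Sp ψ x‖ * x ^ (-(3 / 2) : ℝ) * wB (B + 4) (dK (K i)) x ≤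
        ∫ x in Ioi (1 : ℝ), ‖Sp ψ x‖ * x ^ (-(3 / 2) : ℝ) * wB (B + 4) X x := by
      refine setIntegral_mono_on hi' (FMS_fg h1 h2 hX) measurableSet_Ioi fun x hx => ?_
      have hx0 : (0 : ℝ) < x := lt_trans zero_lt_one hx
      exact mul_le_mul_of_nonneg_left (FMS_wmono hD0 hDX hx0)
        (mul_nonneg (norm_nonneg _) (Real.rpow_nonneg hx0.le _))
    have hIn : 0 ≤ ∫ x in Ioi (1 : ℝ), ‖Sp ψ x‖ * x ^ (-(3 / 2) : ℝ) *
        wB (B + 4) (dK (K i)) x := by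
      refine setIntegral_nonneg measurableSet_Ioi fun x hx => ?_
      have hx0 : (0 : ℝ) < x := lt_trans zero_lt_one hx
      exact mul_nonneg (mul_nonneg (norm_nonneg _) (Real.rpow_nonneg hx0.le _))
        (FMS_wpos hx0).le
    set J := ∫ x in Ioi (1 : ℝ), ‖Sp ψ x‖ ^ 2 * (x ^ (-2 : ℝ) * wB (B + 4) X x) with hJ
    set I₁ := ∫ x in Ioi (1 : ℝ), ‖Sp ψ x‖ * x ^ (-(3 / 2) : ℝ) * wB (B + 4) X x with hI
    have hX2 : dK (K i) ^ (2 * κ) ≤ X ^ (2 * κ) :=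
      Real.rpow_le_rpow hD0.le hDX (by positivity)
    have hb' : ‖F i ψ s‖ ≤ C1 * T ^ k1 * X ^ (2 * κ) * I₁ := by
      refine hb.trans ?_
      refine mul_le_mul ?_ hmono hIn (by positivity)
      exact mul_le_mul_of_nonneg_left hX2 (by positivity)
    have h4 : ‖F i ψ s‖ ^ 2 ≤ C1 ^ 2 * T ^ (2 * k1) * X ^ (4 * κ) *
        (X ^ ε1 * (1 / (2 * ε1))) * J := by
      have h6 : (X ^ (2 * κ)) ^ 2 = X ^ (4 * κ) := by
        rw [← Real.rpow_natCast, ← Real.rpow_mul hX0.le]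
        congr 1
        push_cast
        ring
      calc ‖F i ψ s‖ ^ 2 ≤ (C1 * T ^ k1 * X ^ (2 * κ) * I₁) ^ 2 :=
            pow_le_pow_left₀ (norm_nonneg _) hb' 2
        _ = C1 ^ 2 * T ^ (2 * k1) * (X ^ (2 * κ)) ^ 2 * I₁ ^ 2 := by ring
        _ = C1 ^ 2 * T ^ (2 * k1) * X ^ (4 * κ) * I₁ ^ 2 := by rw [h6]
        _ ≤ C1 ^ 2 * T ^ (2 * k1) * X ^ (4 * κ) * (X ^ ε1 * (1 / (2 * ε1)) * J) := by
            exact mul_le_mul_of_nonneg_left h3 (by positivity)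
        _ = _ := by ring
    calc ‖F i ψ s‖ ^ 4 = ‖F i ψ s‖ ^ 2 * ‖F i ψ s‖ ^ 2 := by ring
      _ ≤ ‖F i ψ s‖ ^ 2 * (C1 ^ 2 * T ^ (2 * k1) * X ^ (4 * κ) *
          (X ^ ε1 * (1 / (2 * ε1))) * J) := mul_le_mul_of_nonneg_left h4 (sq_nonneg _)
      _ = C1 ^ 2 * T ^ (2 * k1) * X ^ (4 * κ) * (X ^ ε1 * (1 / (2 * ε1))) *
          (‖F i ψ s‖ ^ 2 * J) := by ring
  obtain ⟨A, hA⟩ : ∃ A, A = C1 ^ 2 * T ^ (2 * k1) * X ^ (4 * κ) * (X ^ ε1 * (1 / (2 * ε1))) :=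
    ⟨_, rfl⟩
  have hA0 : 0 ≤ A := by rw [hA]; positivity
  rw [← hA] at hfour
  have hsum : ∑ i ∈ S, ∑ ψ : CC (K i), ‖F i ψ s‖ ^ 4 ≤
      A * ∫ x in Ioi (1 : ℝ), ∑ i ∈ S, ∑ ψ : CC (K i), ‖Sp ψ x‖ ^ 2 * ‖F i ψ s‖ ^ 2 *
          (x ^ (-2 : ℝ) * wB (B + 4) X x) := by
    rw [integral_finsetSum S (fun i hi => integrable_finsetSum _ fun ψ _ => hint i hi ψ),
      Finset.mul_sum]
    refine Finset.sum_le_sum fun i hi => ?_
    rw [integral_finsetSum Finset.univ (fun ψ _ => hint i hi ψ), Finset.mul_sum]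
    exact Finset.sum_le_sum fun ψ _ => hfour i hi ψ
  have hw1 : IntegrableOn (fun x : ℝ => x ^ (-1 - ε1)) (Ioi 1) :=
    integrableOn_Ioi_rpow_of_lt (by linarith) one_pos
  have hG : ∫ x in Ioi (1 : ℝ), ∑ i ∈ S, ∑ ψ : CC (K i), ‖Sp ψ x‖ ^ 2 * ‖F i ψ s‖ ^ 2 *
      (x ^ (-2 : ℝ) * wB (B + 4) X x) ≤
      C2 * T ^ k2 * X ^ (3 / 2 + ε1) * X ^ ε1 * (1 / ε1) := by
    have h1 : ∫ x in Ioi (1 : ℝ), ∑ i ∈ S, ∑ ψ : CC (K i), ‖Sp ψ x‖ ^ 2 * ‖F i ψ s‖ ^ 2 *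
        (x ^ (-2 : ℝ) * wB (B + 4) X x) ≤
        ∫ x in Ioi (1 : ℝ), C2 * T ^ k2 * X ^ (3 / 2 + ε1) * X ^ ε1 * x ^ (-1 - ε1) := by
      refine setIntegral_mono_on
        (integrable_finsetSum _ fun i hi => integrable_finsetSum _ fun ψ _ => hint i hi ψ)
        (hw1.const_mul _) measurableSet_Ioi fun x hx => ?_
      have hx1 : (1 : ℝ) < x := hx
      have hx0 : (0 : ℝ) < x := by linarith
      obtain ⟨Q, hQ⟩ : ∃ Q, Q = ∑ i ∈ S, ∑ ψ : CC (K i), ‖Sp ψ x‖ ^ 2 * ‖F i ψ s‖ ^ 2 :=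
        ⟨_, rfl⟩
      have hQ0 : 0 ≤ Q := by
        rw [hQ]
        exact Finset.sum_nonneg fun i _ => Finset.sum_nonneg fun ψ _ => by positivity
      have e1 : ∑ i ∈ S, ∑ ψ : CC (K i), ‖Sp ψ x‖ ^ 2 * ‖F i ψ s‖ ^ 2 *
          (x ^ (-2 : ℝ) * wB (B + 4) X x) = Q * (x ^ (-2 : ℝ) * wB (B + 4) X x) := by
        rw [hQ, Finset.sum_mul]
        refine Finset.sum_congr rfl fun i _ => ?_
        rw [Finset.sum_mul]
      rw [e1]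
      have h2 : 0 ≤ x ^ (-2 : ℝ) := Real.rpow_nonneg hx0.le _
      have h3 := FMS_wprod (B := B) hX hx0 hε1p hε1o
      have h4 := hM3 x hx1.le
      rw [← hQ] at h4
      have h5 : x ^ (-1 - ε1) = x ^ (1 + ε1) * (x ^ (-2 * ε1) * x ^ (-2 : ℝ)) := by
        rw [← Real.rpow_add hx0, ← Real.rpow_add hx0]
        congr 1
        ring
      rw [h5]
      have h6 : 0 ≤ X ^ ε1 * x ^ (-2 * ε1) * x ^ (-2 : ℝ) := by positivity
      calc Q * (x ^ (-2 : ℝ) * wB (B + 4) X x) ≤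
          Q * (x ^ (-2 : ℝ) * (wB B X x * (X ^ ε1 * x ^ (-2 * ε1)))) :=
            mul_le_mul_of_nonneg_left (mul_le_mul_of_nonneg_left h3 h2) hQ0
        _ = (Q * wB B X x) * (X ^ ε1 * x ^ (-2 * ε1) * x ^ (-2 : ℝ)) := by ring
        _ ≤ (C2 * T ^ k2 * X ^ (3 / 2 + ε1) * x ^ (1 + ε1)) *
            (X ^ ε1 * x ^ (-2 * ε1) * x ^ (-2 : ℝ)) := mul_le_mul_of_nonneg_right h4 h6
        _ = _ := by ring
    refine h1.trans (le_of_eq ?_)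
    rw [integral_const_mul, integral_Ioi_rpow_of_lt (by linarith) zero_lt_one, Real.one_rpow,
      show -1 - ε1 + 1 = -ε1 by ring, neg_div_neg_eq]
  refine hsum.trans ((mul_le_mul_of_nonneg_left hG hA0).trans ?_)
  have e3 : X ^ (4 * κ) * X ^ ε1 * X ^ (3 / 2 + ε1) * X ^ ε1 ≤ X ^ (3 / 2 + ε) := by
    rw [← Real.rpow_add hX0, ← Real.rpow_add hX0, ← Real.rpow_add hX0]
    refine Real.rpow_le_rpow_of_exponent_le hX ?_
    linarith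
  calc A * (C2 * T ^ k2 * X ^ (3 / 2 + ε1) * X ^ ε1 * (1 / ε1))
      = C1 ^ 2 * (1 / (2 * ε1)) * C2 * (1 / ε1) * (T ^ (2 * k1) * T ^ k2) *
          (X ^ (4 * κ) * X ^ ε1 * X ^ (3 / 2 + ε1) * X ^ ε1) := by
        rw [hA]
        ring
    _ ≤ C1 ^ 2 * (1 / (2 * ε1)) * C2 * (1 / ε1) * (T ^ (2 * k1) * T ^ k2) *
          X ^ (3 / 2 + ε) := mul_le_mul_of_nonneg_left e3 (by positivity)
    _ = _ := by rw [pow_add]

end Pool.Agent.H30.CM4
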