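import Pool.Agent.H65.CM4.Targets1

/-!
# Row LS: the large sieve inequality over a totally real field, assembly
-/

set_option autoImplicit false

open MeasureTheory Set Filter NumberField NumberField.InfinitePlace Pool.Agent.H65.CM4
open scoped Real

namespace Pool.Agent.H30.CM4

variable (k : Type) [Field k] [NumberField k] [IsTotallyReal k]

variable {k} in
theorem norm_ee (Q : QF k) (ξ : RF k) : ‖ee Q ξ‖ = 1 := by
  unfold ee
  rw [Complex.norm_exp]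
  set s : ℝ := ∑ v : Pl k, (rv v (Q.1 : k) * (ξ v).1 + rv v (Q.2.1 : k) * (ξ v).2.1 +
    rv v (Q.2.2 : k) * (ξ v).2.2)
  have h : (2 * (π : ℂ) * ((s : ℝ) : ℂ) * Complex.I) = ((2 * π * s : ℝ) : ℂ) * Complex.I := by
    push_cast; ring
  rw [h, Complex.re_ofReal_mul, Complex.I_re, mul_zero, Real.exp_zero]

variable {k} in
theorem ee_mul_conj (Q : QF k) (a b : RF k) :
    ee Q a * (starRingEnd ℂ) (ee Q b) = ee Q (a - b) := by
  unfold ee
  rw [← Complex.exp_conj, ← Complex.exp_add]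
  congr 1
  have h : (∑ v : Pl k, (rv v (Q.1 : k) * ((a - b) v).1 + rv v (Q.2.1 : k) * ((a - b) v).2.1 +
      rv v (Q.2.2 : k) * ((a - b) v).2.2)) =
      (∑ v : Pl k, (rv v (Q.1 : k) * (a v).1 + rv v (Q.2.1 : k) * (a v).2.1 +
        rv v (Q.2.2 : k) * (a v).2.2)) -
      ∑ v : Pl k, (rv v (Q.1 : k) * (b v).1 + rv v (Q.2.1 : k) * (b v).2.1 +
        rv v (Q.2.2 : k) * (b v).2.2) := by
    rw [← Finset.sum_sub_distrib]
    refine Finset.sum_congr rfl fun v _ => ?_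
    simp only [Pi.sub_apply, Prod.fst_sub, Prod.snd_sub]
    ring
  rw [h]
  simp only [map_mul, Complex.conj_I, Complex.conj_ofReal, map_ofNat]
  push_cast
  ring

open Classical in
variable {k} in
/-- the diagonal and the off-diagonal terms -/
theorem expand (I : Finset (Ix k)) (c : Ix k → ℂ) (μ : Ideal (𝓞 k) × ℕ → RF k) (Q : QF k) :
    ((‖∑ x ∈ I, c x * ee Q (lam μ x)‖ ^ 2 : ℝ) : ℂ) =
      ((∑ w ∈ I.image (fun x => x.1),
        ‖∑ x ∈ I.filter (fun x => x.1 = w), c x * ee Q (lam μ x)‖ ^ 2 : ℝ) : ℂ) +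
      ∑ x ∈ I, ∑ y ∈ I.filter (fun y => y.1 ≠ x.1),
        c x * (starRingEnd ℂ) (c y) * ee Q (lam μ x - lam μ y) := by
  have hsq : ∀ J : Finset (Ix k), ((‖∑ x ∈ J, c x * ee Q (lam μ x)‖ ^ 2 : ℝ) : ℂ) =
      ∑ x ∈ J, ∑ y ∈ J, c x * (starRingEnd ℂ) (c y) * ee Q (lam μ x - lam μ y) := by
    intro J
    rw [← Complex.normSq_eq_norm_sq, Complex.normSq_eq_conj_mul_self, mul_comm, map_sum,
      Finset.sum_mul_sum]
    refine Finset.sum_congr rfl fun x _ => Finset.sum_congr rfl fun y _ => ?_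
    rw [map_mul, ← ee_mul_conj]
    ring
  rw [hsq I]
  have h1 : ∀ x ∈ I, ∑ y ∈ I, c x * (starRingEnd ℂ) (c y) * ee Q (lam μ x - lam μ y) =
      ∑ y ∈ I.filter (fun y => y.1 = x.1), c x * (starRingEnd ℂ) (c y) * ee Q (lam μ x - lam μ y) +
      ∑ y ∈ I.filter (fun y => y.1 ≠ x.1),
        c x * (starRingEnd ℂ) (c y) * ee Q (lam μ x - lam μ y) := fun x _ =>
    (Finset.sum_filter_add_sum_filter_not I (fun y => y.1 = x.1) _).symm
  rw [Finset.sum_congr rfl h1, Finset.sum_add_distrib]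
  congr 1
  push_cast
  rw [← Finset.sum_fiberwise_of_maps_to (g := fun x : Ix k => x.1) (t := I.image (fun x => x.1))
    (fun x hx => Finset.mem_image_of_mem _ hx)]
  refine Finset.sum_congr rfl fun w _ => ?_
  have h2 := hsq (I.filter (fun x => x.1 = w))
  push_cast at h2
  rw [h2]
  refine Finset.sum_congr rfl fun x hx => ?_
  rw [(Finset.mem_filter.1 hx).2]

open Classical in
theorem pf_LS (_hCHX : T_CHX k) (hEMB : T_EMB k) (_hNRD : T_NRD k) (_hW10 : T_W10 k)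
    (_hNW : T_NW k) (hOFF : T_OFF k) (hDIA : T_DIA k) (hIDX : T_IDX k) : T_LS k := by
  intro R C₂ B hC₂ hB ε hε
  obtain ⟨C₁, hC₁, G0⟩ := hIDX R
  have hCm : 1 ≤ max C₁ C₂ := le_max_of_le_left hC₁
  obtain ⟨d1, hd1, H1⟩ := hOFF R (max C₁ C₂) hCm ε hε
  obtain ⟨d2, hd2, H2⟩ := hDIA R (max C₁ C₂) B hCm hB ε hε
  refine ⟨min d1 d2, lt_min hd1 hd2, fun δ hδ hδd => ?_⟩
  obtain ⟨Ca, hCa, G1⟩ := H1 δ hδ (hδd.trans (min_le_left _ _))
  obtain ⟨Cb, hCb, G2⟩ := H2 δ hδ (hδd.trans (min_le_right _ _))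
  have hC10 : 0 ≤ C₁ := by linarith
  refine ⟨Real.exp π * ((Ca + Cb) * C₁), by positivity, ?_⟩
  intro b y r A M P S c hb hy hr hry hA hAy hM hP hS hc
  have hr0 : 0 < r := by linarith
  have hy0 : 0 < y := by linarith
  have hry' : r ≤ max C₁ C₂ * y := hry.trans (mul_le_mul_of_nonneg_right (le_max_right _ _) hy0.le)
  obtain ⟨I, c', μ, hI, hc', hexp, hdiag⟩ := G0 b r A M c hb hr0 hA hM hc
  have hM1 : 0 ≤ C₁ * M := mul_nonneg hC10 hM
  have hnm0 : ∀ J : Ideal (𝓞 k), 0 ≤ nm J := fun J => Nat.cast_nonneg _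
  have hnn0 : ∀ w : V2 k, 0 ≤ nn r w := by
    intro w
    unfold nn
    refine Finset.prod_nonneg fun v _ => ?_
    unfold nr
    positivity
  have hI' : ∀ x ∈ I, Iv R (max C₁ C₂) r A x := by
    intro x hx
    have h := hI x hx
    exact ⟨h.wm, h.f, h.g, h.u, h.sh.trans (mul_le_mul_of_nonneg_right (le_max_left _ _)
      (hnm0 _)), h.le⟩
  set W : ℝ := y ^ (1 - δ) with hW
  have hWpos : 0 < W := Real.rpow_pos_of_pos hy0 _
  have hW2 : W ^ 2 = y ^ (2 - 2 * δ) := by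
    rw [hW, ← Real.rpow_natCast, ← Real.rpow_mul hy0.le]
    congr 1; push_cast; ring
  set F : Finset (V2 k) := I.image (fun x => x.1) with hF
  set G : V2 k → QF k → ℂ := fun w Q => ∑ x ∈ I.filter (fun x => x.1 = w), c' x * ee Q (lam μ x)
    with hG
  have hFp : ∀ w ∈ F, w ∈ R.W ∧ nn r w ≤ max C₁ C₂ * A := by
    intro w hw
    obtain ⟨x, hx, rfl⟩ := Finset.mem_image.1 hw
    have h := hI' x hx
    refine ⟨h.wm, ?_⟩
    have hf : 1 ≤ nm x.2.1.1 := (hEMB.2.2.2.2.2.2.2.2.2.2.1 _ h.f).1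
    have h1 : nm (den x.2.2) ≤ A := by
      calc nm (den x.2.2) = 1 * nm (den x.2.2) := (one_mul _).symm
        _ ≤ nm x.2.1.1 * nm (den x.2.2) := mul_le_mul_of_nonneg_right hf (hnm0 _)
        _ ≤ A := h.le
    calc nn r x.1 = 1 * nn r x.1 := (one_mul _).symm
      _ ≤ nm x.2.1.1 * nn r x.1 := mul_le_mul_of_nonneg_right hf (hnn0 _)
      _ ≤ max C₁ C₂ * nm (den x.2.2) := h.sh
      _ ≤ max C₁ C₂ * A := mul_le_mul_of_nonneg_left h1 (by linarith)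
  obtain ⟨hsd, hdia⟩ := G2 b y r A (C₁ * M) P F G hb hy hr hry' hA hAy hM1 hP hFp
    (fun w hw Q => hdiag w Q (hFp w hw).1)
  have hoff := G1 y r A (C₁ * M) P I c' μ hy hr hry' hA hAy hM1 hI' hc'
  -- total
  set T : QF k → ℝ := fun Q => ‖∑ x ∈ I, c' x * ee Q (lam μ x)‖ ^ 2 with hT
  set O : QF k → ℂ := fun Q => ∑ x ∈ I, ∑ y ∈ I.filter (fun y => y.1 ≠ x.1),
        c' x * (starRingEnd ℂ) (c' y) * ee Q (lam μ x - lam μ y) with hO
  have hTO : ∀ Q, ((T Q : ℝ) : ℂ) = ((∑ w ∈ F, ‖G w Q‖ ^ 2 : ℝ) : ℂ) + O Q := fun Q =>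
    expand I c' μ Q
  have hga0 : ∀ Q, 0 ≤ ga W r P Q := fun Q => by unfold ga; positivity
  have hTB : ∀ Q, T Q ≤ F.card * ∑ w ∈ F, ‖G w Q‖ ^ 2 := by
    intro Q
    have h1 : ∑ x ∈ I, c' x * ee Q (lam μ x) = ∑ w ∈ F, G w Q :=
      (Finset.sum_fiberwise_of_maps_to (g := fun x : Ix k => x.1) (t := F)
        (fun x hx => Finset.mem_image_of_mem _ hx) _).symm
    have h2 : ‖∑ x ∈ I, c' x * ee Q (lam μ x)‖ ≤ ∑ w ∈ F, ‖G w Q‖ := by
      rw [h1]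
      exact norm_sum_le _ _
    calc T Q = ‖∑ x ∈ I, c' x * ee Q (lam μ x)‖ ^ 2 := rfl
      _ ≤ (∑ w ∈ F, ‖G w Q‖) ^ 2 := pow_le_pow_left₀ (norm_nonneg _) h2 2
      _ ≤ F.card * ∑ w ∈ F, ‖G w Q‖ ^ 2 := sq_sum_le_card_mul_sum_sq
  have hsT : Summable (fun Q => ga W r P Q * T Q) := by
    refine Summable.of_nonneg_of_le (fun Q => mul_nonneg (hga0 Q) (sq_nonneg _)) (fun Q => ?_)
      (hsd.mul_left (F.card : ℝ))
    calc ga W r P Q * T Q ≤ ga W r P Q * (F.card * ∑ w ∈ F, ‖G w Q‖ ^ 2) :=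
          mul_le_mul_of_nonneg_left (hTB Q) (hga0 Q)
      _ = F.card * (ga W r P Q * ∑ w ∈ F, ‖G w Q‖ ^ 2) := by ring
  have hsTc : Summable (fun Q => ((ga W r P Q * T Q : ℝ) : ℂ)) := Complex.summable_ofReal.2 hsT
  have hsdc : Summable (fun Q => ((ga W r P Q * ∑ w ∈ F, ‖G w Q‖ ^ 2 : ℝ) : ℂ)) :=
    Complex.summable_ofReal.2 hsd
  have hOeq : ∀ Q, (ga W r P Q : ℂ) * O Q = ((ga W r P Q * T Q : ℝ) : ℂ) -
      ((ga W r P Q * ∑ w ∈ F, ‖G w Q‖ ^ 2 : ℝ) : ℂ) := by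
    intro Q
    have h := hTO Q
    have h' : O Q = ((T Q : ℝ) : ℂ) - ((∑ w ∈ F, ‖G w Q‖ ^ 2 : ℝ) : ℂ) := by
      rw [h]; ring
    rw [h']
    push_cast
    ring
  have hsum : ∑' Q, (ga W r P Q : ℂ) * O Q = ((∑' Q, ga W r P Q * T Q : ℝ) : ℂ) -
      ((∑' Q, ga W r P Q * ∑ w ∈ F, ‖G w Q‖ ^ 2 : ℝ) : ℂ) := by
    rw [tsum_congr hOeq, hsTc.tsum_sub hsdc, ← Complex.ofReal_tsum, ← Complex.ofReal_tsum]
  set Z : ℝ := y ^ (dg k * (3 + ε)) * r ^ dg k with hZ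
  have htot : ∑' Q, ga W r P Q * T Q ≤ (Ca + Cb) * C₁ * Z * M := by
    have h1 : ‖((∑' Q, ga W r P Q * T Q : ℝ) : ℂ) -
      ((∑' Q, ga W r P Q * ∑ w ∈ F, ‖G w Q‖ ^ 2 : ℝ) : ℂ)‖ ≤
        Ca * y ^ (dg k * (3 + ε)) * r ^ dg k * (C₁ * M) := by
      rw [← hsum]; exact hoff
    rw [← Complex.ofReal_sub, Complex.norm_real, Real.norm_eq_abs] at h1
    have h2 := (abs_le.1 h1).2
    calc ∑' Q, ga W r P Q * T Q ≤ Cb * y ^ (dg k * (3 + ε)) * r ^ dg k * (C₁ * M) +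
          Ca * y ^ (dg k * (3 + ε)) * r ^ dg k * (C₁ * M) := by linarith
      _ = (Ca + Cb) * C₁ * Z * M := by rw [hZ]; ring
  have hS1 : ∀ Q ∈ S, T Q ≤ Real.exp π * (ga W r P Q * T Q) := by
    intro Q hQ
    have h1 : dq r P (rl Q) / W ^ 2 ≤ 1 := by
      rw [div_le_one (by positivity), hW2]
      exact hS Q hQ
    have h2 : (1 : ℝ) ≤ Real.exp π * ga W r P Q := by
      unfold ga
      rw [← Real.exp_add]
      apply Real.one_le_exp
      have h3 : π * dq r P (rl Q) / W ^ 2 = π * (dq r P (rl Q) / W ^ 2) := by ring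
      rw [h3]
      nlinarith [Real.pi_pos]
    calc T Q = 1 * T Q := by ring
      _ ≤ (Real.exp π * ga W r P Q) * T Q :=
        mul_le_mul_of_nonneg_right h2 (sq_nonneg _)
      _ = _ := by ring
  calc ∑ Q ∈ S, ‖∑ J ∈ Sq b A, ∑ L ∈ Ls J, c J L * (Rn J L Q : ℂ)‖ ^ 2 = ∑ Q ∈ S, T Q := by
        refine Finset.sum_congr rfl fun Q _ => ?_
        rw [hexp Q]
    _ ≤ ∑ Q ∈ S, Real.exp π * (ga W r P Q * T Q) := Finset.sum_le_sum hS1
    _ = Real.exp π * ∑ Q ∈ S, ga W r P Q * T Q := by rw [Finset.mul_sum]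
    _ ≤ Real.exp π * ∑' Q, ga W r P Q * T Q :=
        mul_le_mul_of_nonneg_left (hsT.sum_le_tsum S fun Q _ => mul_nonneg (hga0 Q) (sq_nonneg _))
          (Real.exp_pos _).le
    _ ≤ Real.exp π * ((Ca + Cb) * C₁ * Z * M) :=
        mul_le_mul_of_nonneg_left htot (Real.exp_pos _).le
    _ = Real.exp π * ((Ca + Cb) * C₁) * y ^ (dg k * (3 + ε)) * r ^ dg k * M := by rw [hZ]; ring

end Pool.Agent.H30.CM4
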